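import Mathlib

set_option autoImplicit false

namespace Pool.Agent.Results.MP_5e9a16_gt.Cech

open Filter Topology Set TopologicalSpace

universe u v

def Nested {X : Type*} [TopologicalSpace X] (B : ℕ → Set X) : Prop :=
  ∀ n, closure (B (n + 1)) ⊆ interior (B n)

def Pseudobase {X : Type*} [TopologicalSpace X] (𝓑 : Set (Set X)) : Prop :=
  (∀ B ∈ 𝓑, (interior B).Nonempty) ∧ ∀ U : Set X, IsOpen U → U.Nonempty → ∃ B ∈ 𝓑, B ⊆ U

def ToddPseudocomplete (X : Type*) [TopologicalSpace X] : Prop :=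
  ∃ 𝓑 : ℕ → Set (Set X), (∀ n, Pseudobase (𝓑 n)) ∧
    ∀ B : ℕ → Set X, Nested B → (∀ n, B n ∈ 𝓑 n) → (⋂ n, B n).Nonempty

def CechComplete (X : Type*) [TopologicalSpace X] : Prop :=
  IsGδ (range (stoneCechUnit : X → StoneCech X))

/-- An abstract winning strategy in the Banach-Mazur game. -/
def Strat (H : Type*) [TopologicalSpace H] (S : Type*) (U : S → Set H) (R : ℕ → S → S → Prop) :
    Prop :=
  (∀ s, IsOpen (U s) ∧ (U s).Nonempty) ∧ (∃ s, U s = univ) ∧
  (∀ n s O, IsOpen O → O.Nonempty → O ⊆ U s → ∃ s', R n s s' ∧ U s' ⊆ O) ∧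
  ∀ s : ℕ → S, (∀ n, R n (s n) (s (n + 1))) → ∃ a, ∀ n, a ∈ U (s n)

theorem strat_of {G : Type u} {H : Type v} [TopologicalSpace G] [RegularSpace G] [TopologicalSpace H]
    [Nonempty H] (p : G → H) (hp : Continuous p) (hd : DenseRange p)
    (ho : ∀ W : Set G, IsOpen W → p '' W ⊆ interior (closure (p '' W)))
    (hG : ToddPseudocomplete G) :
    ∃ (S : Type (max u v)) (U : S → Set H) (R : ℕ → S → S → Prop), Strat H S U R := by
  obtain ⟨𝓑, h1, h2⟩ := hG
  refine ⟨{q : Set G × Set H // IsOpen q.2 ∧ q.2.Nonempty ∧ q.2 ⊆ closure (p '' interior q.1)},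
    fun s => s.1.2, fun n s s' => s'.1.1 ∈ 𝓑 n ∧ closure s'.1.1 ⊆ interior s.1.1 ∧
      p '' s'.1.1 ⊆ s.1.2, fun s => ⟨s.2.1, s.2.2.1⟩,
    ⟨⟨(univ, univ), isOpen_univ, univ_nonempty, by simp [hd.closure_range]⟩, rfl⟩, ?_, ?_⟩
  · rintro n ⟨⟨B, V⟩, hV1, hV2, hV3⟩ O hO ⟨o, ho1⟩ hOV
    obtain ⟨_, hgO, g, hg, rfl⟩ := mem_closure_iff.1 (hV3 (hOV ho1)) O hO ho1
    have hW : interior B ∩ p ⁻¹' O ∈ 𝓝 g :=
      (isOpen_interior.inter (hO.preimage hp)).mem_nhds ⟨hg, hgO⟩
    obtain ⟨W', hW1, hW2, hW3⟩ := exists_mem_nhds_isClosed_subset hW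
    obtain ⟨B', hB1, hB2⟩ := (h1 n).2 (interior W') isOpen_interior
      ⟨g, mem_interior_iff_mem_nhds.2 hW1⟩
    have hcl : closure B' ⊆ interior B ∩ p ⁻¹' O :=
      (closure_minimal (hB2.trans interior_subset) hW2).trans hW3
    obtain ⟨g', hg'⟩ := (h1 n).1 B' hB1
    refine ⟨⟨(B', O ∩ interior (closure (p '' interior B'))), hO.inter isOpen_interior,
      ⟨p g', (hcl (subset_closure (interior_subset hg'))).2, ho _ isOpen_interior ⟨g', hg', rfl⟩⟩,
      inter_subset_right.trans interior_subset⟩,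
      ⟨hB1, hcl.trans inter_subset_left, ?_⟩, inter_subset_left⟩
    rintro _ ⟨y, hy, rfl⟩
    exact hOV (hcl (subset_closure hy)).2
  · intro s hs
    obtain ⟨g, hg⟩ := h2 (fun n => (s (n + 1)).1.1) (fun n => (hs (n + 1)).2.1) fun n => (hs n).1
    exact ⟨p g, fun n => (hs n).2.2 ⟨g, mem_iInter.1 hg n, rfl⟩⟩

theorem shift {H : Type*} [Group H] [TopologicalSpace H] [IsTopologicalGroup H] (y : ℕ → H)
    (hy : Tendsto (fun q : ℕ × ℕ => y q.1 * (y q.2)⁻¹) atTop (𝓝 1)) {V : Set H} (hV : IsOpen V)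
    (hne : V.Nonempty) :
    ∃ O : Set H, IsOpen O ∧ O.Nonempty ∧ ∀ᶠ k in atTop, ∀ z ∈ O, y k * z ∈ V := by
  obtain ⟨a, ha⟩ := hne
  have hc : ContinuousAt (fun q : H × H => q.1 * q.2) (1, a) := continuous_mul.continuousAt
  have : V ∈ 𝓝 ((fun q : H × H => q.1 * q.2) (1, a)) := by simpa using hV.mem_nhds ha
  obtain ⟨N, hN, W, hW, hNW⟩ := mem_nhds_prod_iff.1 (hc this)
  obtain ⟨⟨m1, m2⟩, hm⟩ := eventually_atTop.1 (hy hN)
  refine ⟨(fun z => y m2 * z) ⁻¹' interior W, isOpen_interior.preimage (by fun_prop),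
    ⟨(y m2)⁻¹ * a, by simpa using mem_interior_iff_mem_nhds.2 hW⟩, ?_⟩
  filter_upwards [eventually_ge_atTop m1] with k hk z hz
  have := hNW (mk_mem_prod (hm (k, m2) ⟨hk, le_rfl⟩) (interior_subset hz))
  simpa [mul_assoc] using this

theorem conv {H : Type*} [Group H] [MetricSpace H] [IsTopologicalGroup H] {S : Type*}
    {U : S → Set H} {R : ℕ → S → S → Prop} (hS : Strat H S U R) (x : ℕ → H)
    (hr : Tendsto (fun q : ℕ × ℕ => x q.1 * (x q.2)⁻¹) atTop (𝓝 1))
    (hl : Tendsto (fun q : ℕ × ℕ => (x q.1)⁻¹ * ((x q.2)⁻¹)⁻¹) atTop (𝓝 1)) :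
    ∃ c, Tendsto x atTop (𝓝 c) := by
  obtain ⟨h1, ⟨s0, hs0⟩, h3, h4⟩ := hS
  let P : Type _ := {q : S × S // ∀ᶠ k in atTop, ∀ z ∈ U q.2, (x k)⁻¹ * z ∈ U q.1}
  have step : ∀ (n : ℕ) (q : P), ∃ q' : P, R n q.1.1 q'.1.1 ∧ R n q.1.2 q'.1.2 ∧
      (∀ᶠ k in atTop, ∀ z ∈ U q'.1.1, x k * z ∈ U q.1.2) ∧
      ∀ z ∈ U q'.1.2, ∀ w ∈ U q'.1.2, dist z w < 1 / ((n : ℝ) + 1) := by
    rintro n ⟨⟨s, t⟩, hq⟩
    obtain ⟨O, hO1, hO2, hO3⟩ := shift x hr (h1 t).1 (h1 t).2
    have hOs : O ⊆ U s := by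
      obtain ⟨k, hk1, hk2⟩ := (hq.and hO3).exists
      intro z hz
      simpa using hk1 _ (hk2 z hz)
    obtain ⟨s', hs1, hs2⟩ := h3 n s O hO1 hO2 hOs
    obtain ⟨O', hO1', ⟨o, ho⟩, hO3'⟩ := shift (fun k => (x k)⁻¹) hl (h1 s').1 (h1 s').2
    have hOt : O' ⊆ U t := by
      obtain ⟨k, hk1, hk2⟩ := (hO3.and hO3').exists
      intro z hz
      simpa using hk1 _ (hs2 (hk2 z hz))
    have hpos : (0 : ℝ) < 1 / ((n : ℝ) + 1) / 2 := by positivity
    obtain ⟨t', ht1, ht2⟩ := h3 n t (O' ∩ Metric.ball o (1 / ((n : ℝ) + 1) / 2))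
      (hO1'.inter Metric.isOpen_ball) ⟨o, ho, Metric.mem_ball_self hpos⟩
      (inter_subset_left.trans hOt)
    refine ⟨⟨(s', t'), hO3'.mono fun k hk z hz => hk z (ht2 hz).1⟩, hs1, ht1,
      hO3.mono fun k hk z hz => hk z (hs2 hz), fun z hz w hw => ?_⟩
    have a1 := Metric.mem_ball.1 (ht2 hz).2
    have a2 := Metric.mem_ball.1 (ht2 hw).2
    linarith [dist_triangle_right z w o]
  choose f hf using step
  let q : ℕ → P := fun n => Nat.rec ⟨(s0, s0), by simp [hs0]⟩ (fun n a => f n a) n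
  obtain ⟨a, ha⟩ := h4 (fun n => (q n).1.1) fun n => (hf n (q n)).1
  obtain ⟨b, hb⟩ := h4 (fun n => (q n).1.2) fun n => (hf n (q n)).2.1
  have : Tendsto (fun k => x k * a) atTop (𝓝 b) := by
    rw [Metric.tendsto_nhds]
    intro ε hε
    obtain ⟨n, hn⟩ := exists_nat_one_div_lt hε
    filter_upwards [(hf (n + 1) (q (n + 1))).2.2.1] with k hk
    exact ((hf n (q n)).2.2.2 _ (hk a (ha (n + 2))) _ (hb (n + 1))).trans hn
  exact ⟨b * a⁻¹, by simpa using this.mul_const a⁻¹⟩

theorem compl_of {H : Type*} [Group H] [t : TopologicalSpace H] [IsTopologicalGroup H]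
    [MetrizableSpace H] {S : Type*}
    {U : S → Set H} {R : ℕ → S → S → Prop} (hS : Strat H S U R) :
    IsCompletelyMetrizableSpace H := by
  have key : ∀ x : ℕ → H, Tendsto (fun q : ℕ × ℕ => x q.1 * (x q.2)⁻¹) atTop (𝓝 1) →
      Tendsto (fun q : ℕ × ℕ => (x q.1)⁻¹ * ((x q.2)⁻¹)⁻¹) atTop (𝓝 1) →
      ∃ c, Tendsto x atTop (𝓝 c) := by
    letI := metrizableSpaceMetric H
    exact fun x => conv hS x
  let uL := IsTopologicalGroup.leftUniformSpace H
  let uR := IsTopologicalGroup.rightUniformSpace H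
  let u : UniformSpace H := (uL ⊓ uR).replaceTopology (by
    exact ((UniformSpace.toTopologicalSpace_inf (u := uL) (v := uR)).trans (inf_idem t)).symm)
  have hu : @uniformity H u = comap (fun p : H × H => p.1⁻¹ * p.2) (𝓝 1) ⊓
      comap (fun p : H × H => p.2 * p.1⁻¹) (𝓝 1) := rfl
  haveI : (@uniformity H u).IsCountablyGenerated := by rw [hu]; infer_instance
  haveI : @CompleteSpace H u := by
    refine @UniformSpace.complete_of_cauchySeq_tendsto H u _ fun x hx => key x ?_ ?_
    · have := (@cauchySeq_iff_tendsto H ℕ u _ _ x).1 hx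
      rw [hu, tendsto_inf, tendsto_comap_iff, tendsto_comap_iff] at this
      have h2 := this.2.inv
      simpa [Function.comp_def] using h2
    · have := (@cauchySeq_iff_tendsto H ℕ u _ _ x).1 hx
      rw [hu, tendsto_inf, tendsto_comap_iff, tendsto_comap_iff] at this
      simpa [Function.comp_def] using this.1
  exact @IsCompletelyMetrizableSpace.of_completeSpace_metrizable H u _ _ _

theorem cech_of (X : Type*) [TopologicalSpace X] [IsCompletelyMetrizableSpace X] :
    CechComplete X := by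
  letI := upgradeIsCompletelyMetrizable X
  let d : X → X → unitInterval := fun x y => ⟨min (dist x y) 1, by positivity, min_le_right _ _⟩
  have hd : ∀ x, Continuous (d x) := fun x => Continuous.subtype_mk (by fun_prop) _
  let F : X → StoneCech X → ℝ := fun x p => (stoneCechExtend (hd x) p : unitInterval)
  have hF : ∀ x, Continuous (F x) := fun x =>
    continuous_subtype_val.comp (continuous_stoneCechExtend _)
  have hFu : ∀ x y, F x (stoneCechUnit y) = min (dist x y) 1 := fun x y => by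
    simp [F, stoneCechExtend_stoneCechUnit, d]
  have t1 : ∀ x y p, min (dist x y) 1 ≤ F x p + F y p := by
    intro x y p
    refine denseRange_stoneCechUnit.induction_on p
      (isClosed_le continuous_const ((hF x).add (hF y))) fun z => ?_
    rw [hFu, hFu]
    have := dist_triangle_right x y z
    have := dist_nonneg (x := x) (y := z)
    have := dist_nonneg (x := y) (y := z)
    simp only [min_def]
    split_ifs <;> linarith
  have t2 : ∀ x y p, F x p ≤ dist x y + F y p := by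
    intro x y p
    refine denseRange_stoneCechUnit.induction_on p
      (isClosed_le (hF x) (continuous_const.add (hF y))) fun z => ?_
    rw [hFu, hFu]
    have := dist_triangle x y z
    have := dist_nonneg (x := x) (y := y)
    simp only [min_def]
    split_ifs <;> linarith
  have : range (stoneCechUnit : X → StoneCech X) =
      ⋂ n : ℕ, ⋃ x, {p | F x p < 1 / ((n : ℝ) + 1)} := by
    ext p
    simp only [mem_iInter, mem_iUnion, mem_setOf_eq]
    constructor
    · rintro ⟨y, rfl⟩ n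
      exact ⟨y, by rw [hFu]; simp; positivity⟩
    · intro h
      choose x hx using h
      have hF0 : Tendsto (fun n => F (x n) p) atTop (𝓝 0) :=
        squeeze_zero (fun n => (stoneCechExtend (hd (x n)) p).2.1) (fun n => (hx n).le)
          tendsto_one_div_add_atTop_nhds_zero_nat
      have hc : CauchySeq x := by
        rw [Metric.cauchySeq_iff]
        intro ε hε
        have hε' : 0 < min ε 1 / 2 := by positivity
        obtain ⟨N, hN⟩ := eventually_atTop.1 (hF0.eventually (gt_mem_nhds hε'))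
        refine ⟨N, fun m hm n hn => ?_⟩
        have a1 := hN m hm
        have a2 := hN n hn
        have a3 := t1 (x m) (x n) p
        have a4 : min (dist (x m) (x n)) 1 < min ε 1 := by linarith
        by_contra hc
        exact not_le.2 a4 (min_le_min_right _ (not_lt.1 hc))
      obtain ⟨c, hc⟩ := cauchySeq_tendsto_of_complete hc
      have hc0 : F c p ≤ 0 := by
        have := ((tendsto_iff_dist_tendsto_zero.1 hc).add hF0)
        rw [add_zero] at this
        exact ge_of_tendsto' this fun n => by rw [dist_comm]; exact t2 _ _ _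
      refine ⟨c, ?_⟩
      by_contra hne
      obtain ⟨V, W, hV, hW, hcV, hpW, hVW⟩ := t2_separation hne
      obtain ⟨ε, hε, hb⟩ := Metric.isOpen_iff.1 (hV.preimage continuous_stoneCechUnit) c hcV
      have hε' : 0 < min ε 1 := by positivity
      obtain ⟨y, hy1, hy2⟩ := denseRange_stoneCechUnit.exists_mem_open
        (hW.inter (isOpen_lt (hF c) continuous_const)) ⟨p, hpW, hc0.trans_lt hε'⟩
      have hy3 : min (dist c y) 1 < min ε 1 := by rw [← hFu]; exact hy2
      have hy4 : y ∈ Metric.ball c ε := by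
        rw [Metric.mem_ball, dist_comm]
        by_contra hc
        exact not_le.2 hy3 (min_le_min_right _ (not_lt.1 hc))
      exact disjoint_left.1 hVW (hb hy4) hy1
  rw [CechComplete, this]
  exact IsGδ.iInter fun n => (isOpen_iUnion fun x => isOpen_lt (hF x) continuous_const).isGδ

theorem result {I : Type u} (H : I → Type v) [∀ i, Group (H i)] [∀ i, TopologicalSpace (H i)]
    [∀ i, IsTopologicalGroup (H i)] [∀ i, MetrizableSpace (H i)] [∀ i, SeparableSpace (H i)]
    (G : Subgroup (∀ i, H i)) (hG : Dense (G : Set (∀ i, H i))) (hT : ToddPseudocomplete G)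
    (j : I) : CechComplete (H j) ∧ IsCompletelyMetrizableSpace (H j) := by
  have hopen : IsOpenMap (Function.eval j : (∀ i, H i) → H j) := isOpenMap_eval j
  obtain ⟨S, U, R, hS⟩ := strat_of (G := G) (H := H j) (fun g => (g : ∀ i, H i) j)
    ((continuous_apply j).comp continuous_subtype_val)
    ((Function.surjective_eval j).denseRange.comp hG.denseRange_val (continuous_apply j))
    (by
      intro W hW
      obtain ⟨W', hW', rfl⟩ := isOpen_induced_iff.1 hW
      have h1 : Function.eval j '' W' ⊆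
          closure ((fun g : G => (g : ∀ i, H i) j) '' (Subtype.val ⁻¹' W')) := by
        refine (image_mono (hG.open_subset_closure_inter hW')).trans ?_
        refine (image_closure_subset_closure_image (continuous_apply j)).trans (closure_mono ?_)
        rintro _ ⟨g, ⟨hg1, hg2⟩, rfl⟩
        exact ⟨⟨g, hg2⟩, hg1, rfl⟩
      refine subset_trans ?_ (interior_maximal h1 (hopen _ hW'))
      rintro _ ⟨g, hg, rfl⟩
      exact ⟨g, hg, rfl⟩) hT
  haveI := compl_of hS
  exact ⟨cech_of _, this⟩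

end Pool.Agent.Results.MP_5e9a16_gt.Cech
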